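import Pool.Agent.N874.QM.Stm
import Pool.Agent.TH942.FG

/-!
# Project QM, part FINC: finiteness of the group of points over a number field from divisibility by two
-/

set_option autoImplicit false

namespace Pool.Agent.N459.QM

open WeierstrassCurve
open Pool.Agent.TH115.GD (Pt)
open Pool.Agent.N874.PP (sW)
open scoped Classical

/-- A finite group whose elements are divisible by two has odd order. -/
theorem odd_card {G : Type} [AddCommGroup G] [Finite G] (h : ∀ P : G, ∃ Q : G, P = (2 : ℕ) • Q) :
    Odd (Nat.card G) := by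
  by_contra hodd
  rw [Nat.not_odd_iff_even, even_iff_two_dvd] at hodd
  haveI := Fact.mk Nat.prime_two
  obtain ⟨T, hT⟩ := exists_prime_addOrderOf_dvd_card' 2 hodd
  have hs : Function.Surjective (fun Q : G => (2 : ℕ) • Q) := fun P => by
    obtain ⟨Q, hQ⟩ := h P
    exact ⟨Q, hQ.symm⟩
  have hi : Function.Injective (fun Q : G => (2 : ℕ) • Q) := Finite.injective_iff_surjective.2 hs
  have h1 : (2 : ℕ) • T = 0 := by
    rw [← hT]
    exact addOrderOf_nsmul_eq_zero T
  have h2 : T = 0 := hi (by simpa using h1)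
  rw [h2, addOrderOf_zero] at hT
  omega

/-- A finitely generated abelian group whose elements are divisible by two is finite. -/
theorem fin_of_div {G : Type} [AddCommGroup G] (hG : AddGroup.FG G)
    (h : ∀ P : G, ∃ Q : G, P = (2 : ℕ) • Q) : Finite G := by
  rw [← Module.Finite.iff_addGroup_fg] at hG
  have hfg : (⊤ : Submodule ℤ G).FG := hG.fg_top
  have hle : (⊤ : Submodule ℤ G) ≤ (Ideal.span {(2 : ℤ)}) • (⊤ : Submodule ℤ G) := by
    intro P _
    obtain ⟨Q, hQ⟩ := h P
    have h2 : P = (2 : ℤ) • Q := by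
      rw [hQ]
      exact (natCast_zsmul Q 2).symm
    rw [h2]
    exact Submodule.smul_mem_smul (Ideal.subset_span rfl) trivial
  obtain ⟨r, hr, hr0⟩ := Submodule.exists_sub_one_mem_and_smul_eq_zero_of_fg_of_le_smul
    (Ideal.span {(2 : ℤ)}) (⊤ : Submodule ℤ G) hfg hle
  rw [Ideal.mem_span_singleton] at hr
  have hrne : r ≠ 0 := by
    intro h0
    rw [h0] at hr
    norm_num at hr
  have ht : Module.IsTorsion ℤ G := by
    intro x
    exact ⟨⟨r, mem_nonZeroDivisors_of_ne_zero hrne⟩, hr0 x trivial⟩
  exact Module.finite_of_fg_torsion G ht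

theorem finc : Pool.Agent.N874.QM.S_FINC := by
  intro M _ _ A B hAB hdiv
  have hfg : AddGroup.FG (Pool.Agent.TH942.SPt A B) := Pool.Agent.TH942.sfg hAB
  have heq : (Pool.Agent.TH942.sw A B).toAffine = ((sW A B).baseChange M).toAffine := by
    apply WeierstrassCurve.ext <;> simp [Pool.Agent.TH942.sw, sW, WeierstrassCurve.baseChange]
  have hfg' : AddGroup.FG (Pt (sW A B) M) := Pool.Agent.TH942.fg_of_eq heq hfg
  haveI : Finite (Pt (sW A B) M) := fin_of_div hfg' hdiv
  exact ⟨inferInstance, odd_card hdiv⟩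

end Pool.Agent.N459.QM
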